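import Pool.Agent.H18.CGR.Stmts2

/-!
Row FSB of MP_286349_an: freeness gives the Schwinger-Dyson equation.
-/

set_option autoImplicit false

noncomputable section

namespace Pool.CGR

namespace FSB

section derivation

variable {A X : Type} [Ring A] [Algebra ℂ A] (τ : A →ₗ[ℂ] ℂ) (z : X → A) (ε : X → ℂ)

/-- the operator of a letter -/
def op (x : X) : Module.End ℂ (A × (A →ₗ[ℂ] ℂ)) where
  toFun b := (z x * b.1, (ε x * τ b.1) • τ + b.2 ∘ₗ LinearMap.mulRight ℂ (z x))
  map_add' b b' := by
    ext
    · simp [mul_add]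
    · simp [mul_add, add_mul]
      ring
  map_smul' r b := by
    ext
    · simp
    · simp
      ring

/-- the operators of the elements of the free algebra -/
def M : FreeAlgebra ℂ X →ₐ[ℂ] Module.End ℂ (A × (A →ₗ[ℂ] ℂ)) := FreeAlgebra.lift ℂ (op τ z ε)

/-- the evaluation -/
abbrev e : FreeAlgebra ℂ X →ₐ[ℂ] A := FreeAlgebra.lift ℂ z

/-- `(τ(a ·) ⊗ τ(· b)) (∂ p)` -/
def De (p : FreeAlgebra ℂ X) (a b : A) : ℂ := (M τ z ε p (b, 0)).2 a

theorem M_ι (x : X) (b : A × (A →ₗ[ℂ] ℂ)) : M τ z ε (FreeAlgebra.ι ℂ x) b =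
    (z x * b.1, (ε x * τ b.1) • τ + b.2 ∘ₗ LinearMap.mulRight ℂ (z x)) := by
  simp [M, op]

theorem M_apply (p : FreeAlgebra ℂ X) : ∀ (b : A) (f : A →ₗ[ℂ] ℂ),
    (M τ z ε p (b, f)).1 = e z p * b ∧
    ∀ a, (M τ z ε p (b, f)).2 a = (M τ z ε p (b, 0)).2 a + f (a * e z p) := by
  induction p using FreeAlgebra.induction with
  | grade0 r =>
    intro b f
    rw [AlgHom.commutes, AlgHom.commutes]
    constructor
    · simp [Algebra.algebraMap_eq_smul_one]
    · intro a
      simp [Algebra.algebraMap_eq_smul_one]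
  | grade1 x =>
    intro b f
    rw [M_ι, M_ι]
    simp
  | mul p q hp hq =>
    intro b f
    have h1 : ∀ g, M τ z ε (p * q) (b, g) = M τ z ε p ((M τ z ε q (b, g)).1, (M τ z ε q (b, g)).2) := by
      intro g
      rw [map_mul]
      rfl
    have h2 : e z (p * q) = e z p * e z q := map_mul _ _ _
    rw [h1, h1, h2]
    refine ⟨?_, fun a => ?_⟩
    · rw [(hp _ _).1, (hq _ _).1, mul_assoc]
    · rw [(hp _ _).2, (hq _ _).2, (hp (M τ z ε q (b, 0)).1 (M τ z ε q (b, 0)).2).2, (hq _ _).1,
        (hq _ _).1, mul_assoc]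
      ring
  | add p q hp hq =>
    intro b f
    rw [map_add, map_add]
    refine ⟨?_, fun a => ?_⟩
    · rw [LinearMap.add_apply, Prod.fst_add, (hp _ _).1, (hq _ _).1, add_mul]
    · rw [LinearMap.add_apply, LinearMap.add_apply, Prod.snd_add, Prod.snd_add,
        LinearMap.add_apply, LinearMap.add_apply, (hp _ _).2, (hq _ _).2, mul_add, map_add]
      ring

theorem De_mul (p q : FreeAlgebra ℂ X) (a b : A) :
    De τ z ε (p * q) a b = De τ z ε p a (e z q * b) + De τ z ε q (a * e z p) b := by
  have h1 : M τ z ε (p * q) (b, 0) =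
      M τ z ε p ((M τ z ε q (b, 0)).1, (M τ z ε q (b, 0)).2) := by
    rw [map_mul]
    rfl
  unfold De
  rw [h1, (M_apply τ z ε p _ _).2, (M_apply τ z ε q _ _).1]

theorem De_ι (x : X) (a b : A) : De τ z ε (FreeAlgebra.ι ℂ x) a b = ε x * τ b * τ a := by
  unfold De
  rw [M_ι]
  simp

theorem De_algebraMap (r : ℂ) (a b : A) :
    De τ z ε (algebraMap ℂ (FreeAlgebra ℂ X) r) a b = 0 := by
  unfold De
  rw [AlgHom.commutes]
  simp [Module.algebraMap_end_apply]

theorem De_one (a b : A) : De τ z ε (1 : FreeAlgebra ℂ X) a b = 0 := by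
  have h := De_algebraMap τ z ε 1 a b
  rwa [map_one] at h

theorem De_add (p q : FreeAlgebra ℂ X) (a b : A) :
    De τ z ε (p + q) a b = De τ z ε p a b + De τ z ε q a b := by
  unfold De
  rw [map_add]
  rfl

theorem De_smul (r : ℂ) (p : FreeAlgebra ℂ X) (a b : A) :
    De τ z ε (r • p) a b = r * De τ z ε p a b := by
  unfold De
  rw [map_smul]
  rfl

theorem e_word (w : List X) : e z ((w.map (FreeAlgebra.ι ℂ)).prod) = ev z w := by
  rw [map_list_prod, List.map_map]
  unfold ev
  congr 1
  apply List.map_congr_left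
  intro x _
  simp

theorem De_word (w : List X) : ∀ a b : A,
    De τ z ε ((w.map (FreeAlgebra.ι ℂ)).prod) a b = ∑ k ∈ Finset.range w.length,
      (match w[k]? with
        | some x => ε x
        | none => 0) * (τ (a * ev z (w.take k)) * τ (ev z (w.drop (k + 1)) * b)) := by
  induction w with
  | nil =>
    intro a b
    simp [De_one]
  | cons x w ih =>
    intro a b
    rw [List.map_cons, List.prod_cons, De_mul, De_ι, ih, e_word, List.length_cons,
      Finset.sum_range_succ']
    have h0 : e z (FreeAlgebra.ι ℂ x) = z x := FreeAlgebra.lift_ι_apply _ _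
    rw [h0]
    simp only [List.getElem?_cons_succ, List.take_succ_cons, List.drop_succ_cons,
      List.getElem?_cons_zero, List.take_zero, List.drop_zero]
    have h1 : ∀ k, a * ev z (x :: w.take k) = a * z x * ev z (w.take k) := by
      intro k
      simp [ev, mul_assoc]
    simp only [h1]
    have h2 : ev z ([] : List X) = 1 := by simp [ev]
    rw [h2, mul_one]
    ring

end derivation

section free

variable {m : ℕ}

/-- the colours of the letters -/
def col : Fin m ⊕ Fin m → Option (Fin m)
  | Sum.inl _ => none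
  | Sum.inr j => some j

/-- the indicator of the letter `inr i` -/
def ind (i : Fin m) (x : Fin m ⊕ Fin m) : ℂ := if x = Sum.inr i then 1 else 0

variable {A : Type} [Ring A] [Algebra ℂ A] (τ : A →ₗ[ℂ] ℂ) (y S : Fin m → A)

/-- the algebras of the colours -/
abbrev B (o : Option (Fin m)) : Subalgebra ℂ A :=
  Algebra.adjoin ℂ (o.elim (Set.range y) fun i => {S i})

/-- the algebras of the colours, in the free algebra -/
abbrev BB (o : Option (Fin m)) : Subalgebra ℂ (FreeAlgebra ℂ (Fin m ⊕ Fin m)) :=
  Algebra.adjoin ℂ (FreeAlgebra.ι ℂ '' (col ⁻¹' {o}))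

theorem e_mem (o : Option (Fin m)) {p : FreeAlgebra ℂ (Fin m ⊕ Fin m)} (hp : p ∈ BB o) :
    e (Sum.elim y S) p ∈ B y S o := by
  induction hp using Algebra.adjoin_induction with
  | mem x hx =>
    obtain ⟨x, hx, rfl⟩ := hx
    have hx' : col x = o := hx
    subst hx'
    rw [show e (Sum.elim y S) (FreeAlgebra.ι ℂ x) = Sum.elim y S x from
      FreeAlgebra.lift_ι_apply _ _]
    apply Algebra.subset_adjoin
    cases x with
    | inl j => exact ⟨j, rfl⟩
    | inr j => exact rfl
  | algebraMap r =>
    rw [AlgHom.commutes]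
    exact Subalgebra.algebraMap_mem _ r
  | add p q _ _ hp hq =>
    rw [map_add]
    exact add_mem hp hq
  | mul p q _ _ hp hq =>
    rw [map_mul]
    exact mul_mem hp hq

theorem De_other (i : Fin m) (o : Option (Fin m)) (ho : o ≠ some i)
    {p : FreeAlgebra ℂ (Fin m ⊕ Fin m)} (hp : p ∈ BB o) :
    ∀ a b : A, De τ (Sum.elim y S) (ind i) p a b = 0 := by
  induction hp using Algebra.adjoin_induction with
  | mem x hx =>
    obtain ⟨x, hx, rfl⟩ := hx
    have hx' : col x = o := hx
    intro a b
    have hi : ind i x = 0 := by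
      unfold ind
      rw [if_neg]
      rintro rfl
      exact ho hx'.symm
    rw [De_ι, hi, zero_mul, zero_mul]
  | algebraMap r =>
    intro a b
    exact De_algebraMap _ _ _ r a b
  | add p q _ _ hp hq =>
    intro a b
    rw [De_add, hp, hq, add_zero]
  | mul p q _ _ hp hq =>
    intro a b
    rw [De_mul, hp, hq, add_zero]

theorem De_right (i : Fin m) {p : FreeAlgebra ℂ (Fin m ⊕ Fin m)} (hp : p ∈ BB (some i)) :
    ∀ a b : A, (∀ u ∈ B y S (some i), τ (u * b) = 0) →
      De τ (Sum.elim y S) (ind i) p a b = 0 := by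
  induction hp using Algebra.adjoin_induction with
  | mem x hx =>
    obtain ⟨x, hx, rfl⟩ := hx
    intro a b hb
    have h := hb 1 (one_mem _)
    rw [one_mul] at h
    rw [De_ι, h, mul_zero, zero_mul]
  | algebraMap r =>
    intro a b _
    exact De_algebraMap _ _ _ r a b
  | add p q _ _ hp hq =>
    intro a b hb
    rw [De_add, hp a b hb, hq a b hb, add_zero]
  | mul p q _ hq' hp hq =>
    intro a b hb
    rw [De_mul, hq _ b hb, hp, add_zero]
    intro u hu
    rw [← mul_assoc]
    exact hb _ (mul_mem hu (e_mem y S (some i) hq'))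

theorem De_left (i : Fin m) {p : FreeAlgebra ℂ (Fin m ⊕ Fin m)} (hp : p ∈ BB (some i)) :
    ∀ a b : A, (∀ u ∈ B y S (some i), τ (a * u) = 0) →
      De τ (Sum.elim y S) (ind i) p a b = 0 := by
  induction hp using Algebra.adjoin_induction with
  | mem x hx =>
    obtain ⟨x, hx, rfl⟩ := hx
    intro a b hb
    have h := hb 1 (one_mem _)
    rw [mul_one] at h
    rw [De_ι, h, mul_zero]
  | algebraMap r =>
    intro a b _
    exact De_algebraMap _ _ _ r a b
  | add p q _ _ hp hq =>
    intro a b hb
    rw [De_add, hp a b hb, hq a b hb, add_zero]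
  | mul p q hp' _ hp hq =>
    intro a b hb
    rw [De_mul, hp a _ hb, hq, add_zero]
    intro u hu
    rw [mul_assoc]
    exact hb _ (mul_mem (e_mem y S (some i) hp') hu)

/-! ### Freeness -/

/-- freeness with one more factor on the left -/
theorem free_left (h1 : τ 1 = 1) (hF : FreeAlg τ (B y S)) (o : Option (Fin m)) (u : A)
    (hu : u ∈ B y S o) (L : List (Option (Fin m) × A))
    (hc : (o :: L.map Prod.fst).IsChain (· ≠ ·)) (hL : ∀ a ∈ L, a.2 ∈ B y S a.1 ∧ τ a.2 = 0) :
    τ (u * (L.map Prod.snd).prod) = τ u * τ (L.map Prod.snd).prod := by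
  have h := hF ((o, u - τ u • (1 : A)) :: L) (List.cons_ne_nil _ _)
    ((List.isChain_map Prod.fst).1 hc) (by
      intro a ha
      rcases List.mem_cons.1 ha with rfl | ha
      · refine ⟨sub_mem hu (Subalgebra.smul_mem _ (one_mem _) _), ?_⟩
        simp [h1]
      · exact hL a ha)
  rw [List.map_cons, List.prod_cons, sub_mul, smul_mul_assoc, one_mul, map_sub, map_smul,
    smul_eq_mul, sub_eq_zero] at h
  exact h

/-- freeness with one more factor on the right -/
theorem free_right (h1 : τ 1 = 1) (hF : FreeAlg τ (B y S)) (o : Option (Fin m)) (u : A)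
    (hu : u ∈ B y S o) (L : List (Option (Fin m) × A))
    (hc : (L.map Prod.fst ++ [o]).IsChain (· ≠ ·)) (hL : ∀ a ∈ L, a.2 ∈ B y S a.1 ∧ τ a.2 = 0) :
    τ ((L.map Prod.snd).prod * u) = τ (L.map Prod.snd).prod * τ u := by
  have hc' : ((L ++ [(o, u - τ u • (1 : A))]).map Prod.fst).IsChain (· ≠ ·) := by
    rw [List.map_append]
    exact hc
  have h := hF (L ++ [(o, u - τ u • (1 : A))]) (by simp)
    ((List.isChain_map Prod.fst).1 hc') (by
      intro a ha
      rcases List.mem_append.1 ha with ha | ha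
      · exact hL a ha
      · rw [List.mem_singleton.1 ha]
        refine ⟨sub_mem hu (Subalgebra.smul_mem _ (one_mem _) _), ?_⟩
        simp [h1])
  rw [List.map_append, List.prod_append, List.map_singleton, List.prod_singleton, mul_sub,
    mul_smul_comm, mul_one, map_sub, map_smul, smul_eq_mul, sub_eq_zero] at h
  rw [h, mul_comm]

/-- the evaluation of a list of elements of the free algebra -/
def EL (l : List (Option (Fin m) × FreeAlgebra ℂ (Fin m ⊕ Fin m))) :
    List (Option (Fin m) × A) := l.map fun a => (a.1, e (Sum.elim y S) a.2)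

/-- alternating and centred -/
def AC (l : List (Option (Fin m) × FreeAlgebra ℂ (Fin m ⊕ Fin m))) : Prop :=
  (l.map Prod.fst).IsChain (· ≠ ·) ∧
    ∀ a ∈ l, a.2 ∈ BB a.1 ∧ τ (e (Sum.elim y S) a.2) = 0

theorem EL_fst (l : List (Option (Fin m) × FreeAlgebra ℂ (Fin m ⊕ Fin m))) :
    (EL y S l).map Prod.fst = l.map Prod.fst := by
  simp [EL, Function.comp_def]

theorem EL_prod (l : List (Option (Fin m) × FreeAlgebra ℂ (Fin m ⊕ Fin m))) :
    ((EL y S l).map Prod.snd).prod = e (Sum.elim y S) (l.map Prod.snd).prod := by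
  rw [map_list_prod]
  simp [EL, Function.comp_def]

theorem EL_mem {l : List (Option (Fin m) × FreeAlgebra ℂ (Fin m ⊕ Fin m))} (hl : AC τ y S l) :
    ∀ a ∈ EL y S l, a.2 ∈ B y S a.1 ∧ τ a.2 = 0 := by
  intro a ha
  obtain ⟨b, hb, rfl⟩ := List.mem_map.1 ha
  exact ⟨e_mem y S b.1 (hl.2 b hb).1, (hl.2 b hb).2⟩

theorem AC_zero (hF : FreeAlg τ (B y S))
    {l : List (Option (Fin m) × FreeAlgebra ℂ (Fin m ⊕ Fin m))} (hl : AC τ y S l) (h0 : l ≠ []) :
    τ (e (Sum.elim y S) (l.map Prod.snd).prod) = 0 := by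
  rw [← EL_prod]
  refine hF _ (by simpa [EL] using h0) ((List.isChain_map Prod.fst).1 ?_) (EL_mem τ y S hl)
  rw [EL_fst]
  exact hl.1

theorem De_rest (h1 : τ 1 = 1) (hF : FreeAlg τ (B y S)) (i : Fin m)
    (l2 : List (Option (Fin m) × FreeAlgebra ℂ (Fin m ⊕ Fin m))) :
    ∀ l1 : List (Option (Fin m) × FreeAlgebra ℂ (Fin m ⊕ Fin m)), l1 ≠ [] → AC τ y S (l1 ++ l2) →
      De τ (Sum.elim y S) (ind i) (l2.map Prod.snd).prod
        (e (Sum.elim y S) (l1.map Prod.snd).prod) 1 = 0 := by
  induction l2 with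
  | nil =>
    intro l1 _ _
    exact De_one _ _ _ _ _
  | cons a l2 ih =>
    intro l1 h0 hl
    have hl1 : AC τ y S l1 := by
      refine ⟨?_, fun b hb => hl.2 b (List.mem_append_left _ hb)⟩
      have h := hl.1
      rw [List.map_append] at h
      exact (List.isChain_append.1 h).1
    rw [List.map_cons, List.prod_cons, De_mul]
    have hsec : De τ (Sum.elim y S) (ind i) (l2.map Prod.snd).prod
        (e (Sum.elim y S) (l1.map Prod.snd).prod * e (Sum.elim y S) a.2) 1 = 0 := by
      have h := ih (l1 ++ [a]) (by simp) (by simpa using hl)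
      rw [List.map_append, List.prod_append, map_mul] at h
      simpa using h
    rw [hsec, add_zero]
    by_cases ha : a.1 = some i
    · apply De_left τ y S i (ha ▸ (hl.2 a (by simp)).1)
      intro u hu
      have h := free_right τ y S h1 hF (some i) u hu (EL y S l1) (by
        rw [EL_fst]
        have h := hl.1
        rw [List.map_append, List.map_cons, ha] at h
        exact (List.isChain_split.1 h).1) (EL_mem τ y S hl1)
      rw [EL_prod, AC_zero τ y S hF hl1 h0, zero_mul] at h
      exact h
    · exact De_other τ y S i a.1 ha (hl.2 a (by simp)).1 _ _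

/-! ### One semicircular element -/

theorem sum_even (f : ℕ → ℂ) (hf : ∀ j, f (2 * j + 1) = 0) (N : ℕ) :
    ∑ k ∈ Finset.range (2 * N + 1), f k = ∑ k ∈ Finset.range (N + 1), f (2 * k) := by
  induction N with
  | zero => simp
  | succ N ih =>
    rw [show 2 * (N + 1) + 1 = 2 * N + 1 + 1 + 1 by ring, Finset.sum_range_succ,
      Finset.sum_range_succ, ih, hf, add_zero, Finset.sum_range_succ _ (N + 1),
      show 2 * N + 1 + 1 = 2 * (N + 1) by ring]

theorem moment (σ : ℕ → ℂ) (hσ : ∀ n, σ (2 * n) = catalan n ∧ σ (2 * n + 1) = 0) (n : ℕ) :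
    σ (n + 1) = ∑ k ∈ Finset.range n, σ k * σ (n - (k + 1)) := by
  rcases Nat.even_or_odd' n with ⟨N, rfl | rfl⟩
  · rw [(hσ N).2]
    symm
    apply Finset.sum_eq_zero
    intro k hk
    have hk' := Finset.mem_range.1 hk
    rcases Nat.even_or_odd' k with ⟨j, rfl | rfl⟩
    · rw [show 2 * N - (2 * j + 1) = 2 * (N - 1 - j) + 1 by omega, (hσ _).2, mul_zero]
    · rw [(hσ _).2, zero_mul]
  · rw [show 2 * N + 1 + 1 = 2 * (N + 1) by ring, (hσ _).1, catalan_succ,
      Fin.sum_univ_eq_sum_range (fun i => catalan i * catalan (N - i)),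
      sum_even (fun k => σ k * σ (2 * N + 1 - (k + 1))) (by
        intro j
        show σ (2 * j + 1) * _ = 0
        rw [(hσ _).2, zero_mul])]
    push_cast
    apply Finset.sum_congr rfl
    intro k hk
    have hk' := Finset.mem_range.1 hk
    rw [show 2 * N - 2 * k = 2 * (N - k) by omega, (hσ _).1, (hσ _).1]

theorem ev_replicate (n : ℕ) (i : Fin m) :
    ev (Sum.elim y S) (List.replicate n (Sum.inr i)) = S i ^ n := by
  simp [ev, List.map_replicate, List.prod_replicate]

theorem one_letter (i : Fin m)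
    (hS : ∀ n : ℕ, τ (S i ^ (2 * n)) = catalan n ∧ τ (S i ^ (2 * n + 1)) = 0)
    {p : FreeAlgebra ℂ (Fin m ⊕ Fin m)} (hp : p ∈ BB (some i)) :
    τ (S i * e (Sum.elim y S) p) = De τ (Sum.elim y S) (ind i) p 1 1 := by
  have h : FreeAlgebra.ι ℂ '' (col ⁻¹' {some i}) =
      {FreeAlgebra.ι ℂ (Sum.inr i : Fin m ⊕ Fin m)} := by
    ext q
    constructor
    · rintro ⟨x, hx, rfl⟩
      have hx' : col x = some i := hx
      cases x with
      | inl j => exact absurd hx' (by simp [col])
      | inr j =>
        have hj : j = i := by simpa [col] using hx'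
        rw [hj]
        rfl
    · intro hq
      exact ⟨Sum.inr i, rfl, hq.symm⟩
  have hp' : p ∈ Algebra.adjoin ℂ {FreeAlgebra.ι ℂ (Sum.inr i : Fin m ⊕ Fin m)} := h ▸ hp
  rw [Algebra.adjoin_singleton_eq_range_aeval] at hp'
  obtain ⟨Q, rfl⟩ := hp'
  induction Q using Polynomial.induction_on' with
  | add P Q hP hQ =>
    have e1 := hP (by
      show _ ∈ Algebra.adjoin ℂ _
      rw [h, Algebra.adjoin_singleton_eq_range_aeval]
      exact ⟨P, rfl⟩)
    have e2 := hQ (by
      show _ ∈ Algebra.adjoin ℂ _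
      rw [h, Algebra.adjoin_singleton_eq_range_aeval]
      exact ⟨Q, rfl⟩)
    simp only [map_add, mul_add, De_add] at e1 e2 ⊢
    rw [e1, e2]
  | monomial n r =>
    have hw : (FreeAlgebra.ι ℂ (Sum.inr i : Fin m ⊕ Fin m)) ^ n =
        ((List.replicate n (Sum.inr i : Fin m ⊕ Fin m)).map (FreeAlgebra.ι ℂ)).prod := by
      simp [List.map_replicate, List.prod_replicate]
    have hm : (Polynomial.aeval (FreeAlgebra.ι ℂ (Sum.inr i : Fin m ⊕ Fin m)))
        (Polynomial.monomial n r) =
        r • ((List.replicate n (Sum.inr i : Fin m ⊕ Fin m)).map (FreeAlgebra.ι ℂ)).prod := by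
      rw [Polynomial.aeval_monomial, Algebra.smul_def, hw]
    show τ (S i * e (Sum.elim y S) (Polynomial.aeval (FreeAlgebra.ι ℂ
        (Sum.inr i : Fin m ⊕ Fin m)) (Polynomial.monomial n r))) = De τ (Sum.elim y S) (ind i)
      (Polynomial.aeval (FreeAlgebra.ι ℂ (Sum.inr i : Fin m ⊕ Fin m))
        (Polynomial.monomial n r)) 1 1
    rw [hm, map_smul, mul_smul_comm, map_smul, smul_eq_mul, De_smul, e_word, ev_replicate,
      ← pow_succ', De_word, moment (fun n => τ (S i ^ n)) hS n, List.length_replicate]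
    congr 1
    apply Finset.sum_congr rfl
    intro k hk
    have hk' := Finset.mem_range.1 hk
    have hk1 : (List.replicate n (Sum.inr i : Fin m ⊕ Fin m))[k]? = some (Sum.inr i) := by
      simp [hk']
    rw [hk1, List.take_replicate, List.drop_replicate, min_eq_left hk'.le, ev_replicate,
      ev_replicate, one_mul, mul_one]
    simp [ind]

end free

end FSB

open FSB in
theorem fsb_thm (h1 : FSAStmt) : FSBStmt := by
  intro m A _ _ τ hτ y S hFS i w
  obtain ⟨hS, hF⟩ := hFS
  have hF' : FreeAlg τ (B y S) := hF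
  have hS1 : τ (S i) = 0 := by
    have h := (hS i 0).2
    simpa using h
  have hSm : S i ∈ B y S (some i) := Algebra.subset_adjoin rfl
  have key : ∀ p : FreeAlgebra ℂ (Fin m ⊕ Fin m),
      τ (S i * e (Sum.elim y S) p) = De τ (Sum.elim y S) (ind i) p 1 1 := by
    intro p
    have hp := h1 (Fin m ⊕ Fin m) (Option (Fin m)) col
      (τ ∘ₗ (e (Sum.elim y S)).toLinearMap) (by simp [hτ]) p
    refine Submodule.span_induction
      (p := fun p _ => τ (S i * e (Sum.elim y S) p) = De τ (Sum.elim y S) (ind i) p 1 1)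
      ?_ ?_ ?_ ?_ hp
    · rintro q ⟨l, hc, hl, rfl⟩
      have hAC : AC τ y S l := ⟨(List.isChain_map Prod.fst).2 hc, fun a ha => hl a ha⟩
      cases l with
      | nil =>
        simp [De_one, hS1]
      | cons a l =>
        have hl' : AC τ y S l := by
          refine ⟨?_, fun b hb => hAC.2 b (List.mem_cons_of_mem _ hb)⟩
          have h := hAC.1
          rw [List.map_cons] at h
          exact h.tail
        have hrest := De_rest τ y S hτ hF' i l [a] (List.cons_ne_nil _ _) hAC
        rw [List.map_singleton, List.prod_singleton] at hrest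
        rw [List.map_cons, List.prod_cons, De_mul, one_mul, hrest, add_zero, mul_one,
          map_mul (e (Sum.elim y S))]
        have hch : (a.1 :: l.map Prod.fst).IsChain (· ≠ ·) := hAC.1
        have ham := hAC.2 a (List.mem_cons_self)
        by_cases ha : a.1 = some i
        · have hu : S i * e (Sum.elim y S) a.2 ∈ B y S (some i) :=
            mul_mem hSm (e_mem y S (some i) (ha ▸ ham.1))
          have h := free_left τ y S hτ hF' (some i) _ hu (EL y S l) (by
            rw [EL_fst, ← ha]
            exact hch) (EL_mem τ y S hl')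
          rw [EL_prod] at h
          rw [← mul_assoc, h]
          by_cases h0 : l = []
          · subst h0
            simp only [List.map_nil, List.prod_nil, map_one, hτ, mul_one]
            exact one_letter τ y S i (hS i) (ha ▸ ham.1)
          · rw [AC_zero τ y S hF' hl' h0, mul_zero]
            symm
            apply De_right τ y S i (ha ▸ ham.1)
            intro u hu
            have h' := free_left τ y S hτ hF' (some i) u hu (EL y S l) (by
              rw [EL_fst, ← ha]
              exact hch) (EL_mem τ y S hl')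
            rw [EL_prod, AC_zero τ y S hF' hl' h0, mul_zero] at h'
            exact h'
        · rw [De_other τ y S i a.1 ha ham.1]
          have h := free_left τ y S hτ hF' (some i) _ hSm (EL y S (a :: l)) (by
            rw [EL_fst, List.map_cons]
            exact List.IsChain.cons_cons (Ne.symm ha) hch) (EL_mem τ y S hAC)
          rw [EL_prod, hS1, zero_mul, List.map_cons, List.prod_cons,
            map_mul (e (Sum.elim y S))] at h
          exact h
    · simp [De]
    · intro p q _ _ hp hq
      rw [map_add, mul_add, map_add, De_add, hp, hq]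
    · intro r p _ hp
      rw [map_smul, mul_smul_comm, map_smul, De_smul, hp, smul_eq_mul]
  have h := key ((w.map (FreeAlgebra.ι ℂ)).prod)
  rw [e_word, De_word] at h
  rw [h]
  unfold dq
  apply Finset.sum_congr rfl
  intro k _
  rw [one_mul, mul_one]
  cases hk : w[k]? with
  | none => simp
  | some x =>
    by_cases hx : x = Sum.inr i
    · simp [ind, hx]
    · simp [ind, hx]

end Pool.CGR
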