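import Pool.Agent.H18.CGR.Stmts

/-!
Row KBD of MP_286349_an: the bound of the free cumulants of a small tuple.
-/

set_option autoImplicit false

noncomputable section

namespace Pool.CGR

theorem kbd_thm (h1 : PBDStmt) (h2 : WSMStmt) : KBDStmt := by
  intro m A _ τ hτ y R hR hy hmR i
  have hm : (1 : ℝ) ≤ m := by
    have h : 1 ≤ m := Nat.one_le_iff_ne_zero.2 (by rintro rfl; exact i.elim0)
    exact_mod_cast h
  have hR1 : R ≤ 1 / 100 := by nlinarith
  have hc : (m : ℝ) * (24 * R) ≤ 24 / 100 := by nlinarith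
  obtain ⟨hs, ht⟩ := h2 m (24 * R) (by positivity) (by linarith)
  have hb : ∀ v : List (Fin m), ‖ky τ y i v‖ * 4 ^ v.length ≤ 2 * R * (24 * R) ^ v.length := by
    intro v
    have h3 : ‖ky τ y i v‖ ≤ 2 * (6 * R) ^ v.length * R := by
      calc ‖ky τ y i v‖ ≤ ‖P τ y v * y i‖ := hτ.norm _
        _ ≤ ‖P τ y v‖ * ‖y i‖ := norm_mul_le _ _
        _ ≤ 2 * (6 * R) ^ v.length * R :=
          mul_le_mul (h1 m A τ hτ y R hR hy v) (hy i) (norm_nonneg _) (by positivity)
    calc ‖ky τ y i v‖ * 4 ^ v.length ≤ 2 * (6 * R) ^ v.length * R * 4 ^ v.length :=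
          mul_le_mul_of_nonneg_right h3 (by positivity)
      _ = 2 * R * ((6 * R) ^ v.length * 4 ^ v.length) := by ring
      _ = 2 * R * (24 * R) ^ v.length := by
          rw [← mul_pow]
          congr 2
          ring
  have hs' : Summable (fun v : List (Fin m) => 2 * R * (24 * R) ^ v.length) := hs.mul_left _
  have hS : Summable (fun v : List (Fin m) => ‖ky τ y i v‖ * 4 ^ v.length) :=
    Summable.of_nonneg_of_le (fun v => by positivity) hb hs'
  refine ⟨hS, ?_⟩
  calc ∑' v : List (Fin m), ‖ky τ y i v‖ * 4 ^ v.length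
      ≤ ∑' v : List (Fin m), 2 * R * (24 * R) ^ v.length := hS.tsum_le_tsum hb hs'
    _ = 2 * R * (1 / (1 - m * (24 * R))) := by rw [tsum_mul_left, ht]
    _ = 2 * R / (1 - m * (24 * R)) := by ring
    _ ≤ 1 / 4 := by
        rw [div_le_iff₀ (by linarith)]
        linarith

end Pool.CGR
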